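import Mathlib
import Pool.Agent.UniM.Mode

/-!
# MP_346bfe_co / AllForests: every forest has a unimodal independence sequence, with its mode near the
mean size of an independent set
-/

set_option autoImplicit false

namespace Pool.Agent.Results.MP_346bfe_co.AllForests

/-- `i_k(G)`: the number of sets of exactly `k` pairwise non-adjacent vertices. -/
noncomputable def indepCount {V : Type*} (G : SimpleGraph V) (k : ℕ) : ℕ :=
  Nat.card {s : Finset V // s.card = k ∧ ∀ x ∈ s, ∀ y ∈ s, ¬ G.Adj x y}

/-- The number of all independent sets of `G` (the empty set included). -/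
noncomputable def total {V : Type*} [Fintype V] (G : SimpleGraph V) : ℕ :=
  ∑ k ∈ Finset.range (Fintype.card V + 1), indepCount G k

/-- The mean size of an independent set of `G`. -/
noncomputable def mean {V : Type*} [Fintype V] (G : SimpleGraph V) : ℝ :=
  (∑ k ∈ Finset.range (Fintype.card V + 1), (k : ℝ) * indepCount G k) / total G

open Pool.Agent.UniM

theorem indepCount_eq {V : Type*} [Fintype V] [DecidableEq V] (G : SimpleGraph V) (k : ℕ) :
    indepCount G k = ik G Finset.univ k := by
  classical
  unfold indepCount ik
  rw [Nat.card_eq_fintype_card, Fintype.card_subtype]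
  congr 1
  ext s
  simp only [Finset.mem_filter, Finset.mem_univ, true_and, mem_ind, Finset.subset_univ]
  constructor
  · rintro ⟨h1, h2⟩
    refine ⟨fun x hx y hy _ => h2 x hx y hy, h1⟩
  · rintro ⟨h1, h2⟩
    refine ⟨h2, fun x hx y hy hxy => ?_⟩
    exact h1 hx hy hxy.ne hxy

theorem total_eq {V : Type*} [Fintype V] [DecidableEq V] (G : SimpleGraph V) :
    total G = PP G Finset.univ := by
  unfold total PP
  rw [Finset.card_eq_sum_card_fiberwise (f := fun s : Finset V => s.card)
    (t := Finset.range (Fintype.card V + 1))]
  · refine Finset.sum_congr rfl fun k _ => ?_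
    rw [indepCount_eq]
    rfl
  · intro s _
    have := Finset.card_le_univ s
    exact Finset.mem_coe.2 (Finset.mem_range.2 (Nat.lt_succ_of_le this))

theorem mean_eq {V : Type*} [Fintype V] [DecidableEq V] (G : SimpleGraph V) :
    mean G = mu G Finset.univ := by
  unfold mean mu SS
  rw [total_eq]
  congr 1
  have h : ∀ s ∈ ind G Finset.univ, (fun s : Finset V => s.card) s ∈
      Finset.range (Fintype.card V + 1) := by
    intro s _
    have := Finset.card_le_univ s
    exact Finset.mem_range.2 (Nat.lt_succ_of_le this)
  rw [← Finset.sum_fiberwise_of_maps_to h]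
  refine Finset.sum_congr rfl fun k _ => ?_
  have h2 : ∀ s ∈ (ind G Finset.univ).filter (fun s => s.card = k), (s.card : ℝ) = k := by
    intro s hs
    rw [(Finset.mem_filter.1 hs).2]
  rw [Finset.sum_congr rfl h2, Finset.sum_const, nsmul_eq_mul, indepCount_eq, mul_comm]
  rfl

/-- **Unimodality of the independence sequence of every forest**, with localisation of the mode:
the sequence increases up to `mean - R` and decreases from `mean + R` on, where
`R = 13/80 √(log₂ (number of independent sets)) + 3/10`. -/
theorem result {V : Type*} [Fintype V] (G : SimpleGraph V) (hG : G.IsAcyclic) :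
    (∃ m : ℕ, (∀ i, i < m → indepCount G i ≤ indepCount G (i + 1)) ∧
      ∀ i, m ≤ i → indepCount G (i + 1) ≤ indepCount G i) ∧
    ∀ k : ℕ,
      ((k : ℝ) + 1 / 2 ≤ mean G - (13 / 80 * √(Real.logb 2 (total G)) + 3 / 10) →
        indepCount G k ≤ indepCount G (k + 1)) ∧
      (mean G + (13 / 80 * √(Real.logb 2 (total G)) + 3 / 10) ≤ (k : ℝ) + 1 / 2 →
        indepCount G (k + 1) ≤ indepCount G k) := by
  classical
  have hgood := good_wB hG (Finset.univ : Finset V)
  refine ⟨?_, fun k => ⟨fun hk => ?_, fun hk => ?_⟩⟩
  · obtain ⟨m, h1, h2⟩ := unimodal_all hG (Finset.univ : Finset V)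
    refine ⟨m, fun i hi => ?_, fun i hi => ?_⟩
    · rw [indepCount_eq, indepCount_eq]
      exact h1 i hi
    · rw [indepCount_eq, indepCount_eq]
      exact h2 i hi
  · rw [mean_eq, total_eq] at hk
    rw [indepCount_eq, indepCount_eq]
    exact hgood.dn k hk
  · rw [mean_eq, total_eq] at hk
    rw [indepCount_eq, indepCount_eq]
    exact hgood.up k hk

end Pool.Agent.Results.MP_346bfe_co.AllForests
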