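import Mathlib

/-!
# The first quarter of the independence sequence of a forest is increasing

For a forest `G` on `n` vertices let `i k` be the number of independent sets with `k` vertices.
We prove `(n - 3 k) * i k ≤ (k + 1) * i (k + 1)` for every `k`, and hence `i k ≤ i (k + 1)` whenever `4 k + 1 ≤ n`.
-/

open Finset

namespace Pool.Agent.Results.MP_346bfe_co.InitialQuarter

/-- `indepCount G k` is the number of independent sets of `G` with exactly `k` vertices. -/
noncomputable def indepCount {V : Type*} (G : SimpleGraph V) (k : ℕ) : ℕ :=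
  Nat.card {s : Finset V // s.card = k ∧ G.IsIndepSet (s : Set V)}

section parent

variable {V : Type*} (G : SimpleGraph V)

/-- A choice of a parent for every vertex, such that every edge joins a vertex to its parent in exactly one way. -/
structure Parent where
  p : V → Option V
  adj_of_parent : ∀ u v, p u = some v → G.Adj u v
  parent_of_adj : ∀ u v, G.Adj u v → p u = some v ∨ p v = some u
  not_both : ∀ u v, p u = some v → p v ≠ some u

variable {G}

lemma exists_parent (hG : G.IsAcyclic) : Nonempty (Parent G) := by
  classical
  -- a root in every component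
  have hroot : ∀ v : V, G.Reachable v (G.connectedComponentMk v).out := by
    intro v
    have : G.connectedComponentMk ((G.connectedComponentMk v).out) = G.connectedComponentMk v :=
      Quot.out_eq _
    exact (SimpleGraph.ConnectedComponent.eq.mp this).symm
  -- the path to the root
  have hpath : ∀ v : V, ∃ q : G.Walk v (G.connectedComponentMk v).out, q.IsPath := by
    intro v
    obtain ⟨w⟩ := hroot v
    exact ⟨w.toPath, w.toPath.2⟩
  choose q hq using hpath
  have hsame : ∀ u v : V, G.Adj u v → (G.connectedComponentMk u).out = (G.connectedComponentMk v).out := by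
    intro u v h
    rw [SimpleGraph.ConnectedComponent.eq.mpr h.reachable]
  have huniq : ∀ (u r : V) (a b : G.Walk u r), a.IsPath → b.IsPath → a = b := by
    intro u r a b ha hb
    have := (hG.subsingleton_path u r).elim ⟨a, ha⟩ ⟨b, hb⟩
    exact congrArg Subtype.val this
  refine ⟨⟨fun v => if v = (G.connectedComponentMk v).out then none else some (q v).snd, ?_, ?_, ?_⟩⟩
  · intro u v h
    by_cases hu : u = (G.connectedComponentMk u).out
    · rw [if_pos hu] at h
      cases h
    · rw [if_neg hu] at h
      have h' : (q u).snd = v := Option.some.inj h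
      rw [← h']
      apply SimpleGraph.Walk.adj_snd
      exact SimpleGraph.Walk.not_nil_of_ne hu
  · intro u v h
    have key : ∀ (a b r : V) (hab : G.Adj a b) (qa : G.Walk a r) (qb : G.Walk b r), qa.IsPath → qb.IsPath →
        (a ≠ r ∧ qa.snd = b) ∨ (b ≠ r ∧ qb.snd = a) := by
      intro a b r hab qa qb ha hb
      by_cases hmem : a ∈ qb.support
      · right
        have h1 : b ≠ r := by
          rintro rfl
          have hnil : qb = SimpleGraph.Walk.nil := huniq _ _ _ _ hb SimpleGraph.Walk.IsPath.nil
          rw [hnil] at hmem
          simp at hmem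
          exact hab.ne hmem
        refine ⟨h1, ?_⟩
        exact (hG.eq_snd_of_adj_start hb hab.symm hmem).symm
      · left
        have hc : (SimpleGraph.Walk.cons hab qb).IsPath := by
          rw [SimpleGraph.Walk.cons_isPath_iff]
          exact ⟨hb, hmem⟩
        have he : qa = SimpleGraph.Walk.cons hab qb := huniq _ _ _ _ ha hc
        refine ⟨?_, ?_⟩
        · rintro rfl
          exact hmem qb.end_mem_support
        · rw [he, SimpleGraph.Walk.snd_cons]
    have hs := hsame u v h
    rcases key u v (G.connectedComponentMk u).out h (q u) ((q v).copy rfl hs.symm) (hq u)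
      (by simpa using hq v) with ⟨h1, h2⟩ | ⟨h1, h2⟩
    · left
      rw [if_neg h1, h2]
    · right
      rw [hs] at h1
      rw [if_neg h1]
      congr 1
      rw [← h2]
      have : ∀ (a b : V) (hab : a = b) (w : G.Walk v a), (w.copy rfl hab).snd = w.snd := by
        intro a b hab w
        subst hab
        rfl
      exact (this _ _ hs.symm (q v)).symm
  · intro u v h1 h2
    have hlen : ∀ (a b r : V) (qa : G.Walk a r) (qb : G.Walk b r), qa.IsPath → qb.IsPath → a ≠ r →
        qa.snd = b → qa.length = qb.length + 1 := by
      intro a b r qa qb ha hb har hs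
      subst hs
      have : qb = qa.tail := huniq _ _ _ _ hb ha.tail
      rw [this, SimpleGraph.Walk.length_tail_add_one (SimpleGraph.Walk.not_nil_of_ne har)]
    have hgo : ∀ a b : V, (if a = (G.connectedComponentMk a).out then none else some (q a).snd) = some b →
        G.Adj a b ∧ (q a).length = (q b).length + 1 := by
      intro a b hab
      by_cases ha : a = (G.connectedComponentMk a).out
      · rw [if_pos ha] at hab
        cases hab
      · rw [if_neg ha] at hab
        have hab' : (q a).snd = b := Option.some.inj hab
        have hadj : G.Adj a b := by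
          rw [← hab']
          exact SimpleGraph.Walk.adj_snd (SimpleGraph.Walk.not_nil_of_ne ha)
        refine ⟨hadj, ?_⟩
        have hs := hsame a b hadj
        have := hlen a b _ (q a) ((q b).copy rfl hs.symm) (hq a) (by simpa using hq b) ha hab'
        simpa using this
    have e1 := (hgo u v h1).2
    have e2 := (hgo v u h2).2
    omega

end parent

section count

variable {V : Type*} [Fintype V] [DecidableEq V] (G : SimpleGraph V)

open Classical in
/-- The independent sets with exactly `k` vertices, as a finite set. -/
noncomputable def indeps (k : ℕ) : Finset (Finset V) :=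
  (Finset.univ : Finset (Finset V)).filter (fun s => s.card = k ∧ G.IsIndepSet (s : Set V))

lemma card_indeps (k : ℕ) : (indeps G k).card = indepCount G k := by
  classical
  unfold indeps indepCount
  rw [Nat.card_eq_fintype_card, Fintype.card_subtype]

lemma mem_indeps {k : ℕ} {s : Finset V} : s ∈ indeps G k ↔ s.card = k ∧ G.IsIndepSet (s : Set V) := by
  classical
  unfold indeps
  rw [Finset.mem_filter]
  simp

/-- Independent `k`-sets containing `v`. -/
noncomputable def N (k : ℕ) (v : V) : ℕ := ((indeps G k).filter (fun s => v ∈ s)).card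

lemma sum_N (k : ℕ) : ∑ v, N G k v = k * (indeps G k).card := by
  unfold N
  simp_rw [Finset.card_filter]
  rw [Finset.sum_comm]
  have : ∀ s ∈ indeps G k, ∑ v, (if v ∈ s then 1 else 0) = k := by
    intro s hs
    rw [← Finset.card_filter, Finset.filter_mem_eq_inter, Finset.univ_inter]
    exact ((mem_indeps G).mp hs).1
  rw [Finset.sum_congr rfl this, Finset.sum_const, smul_eq_mul, mul_comm]

open Classical in
/-- Extension count: pairs of an independent `k`-set and a free vertex. -/
lemma ext_count (k : ℕ) :
    ∑ s ∈ indeps G k, (Finset.univ.filter (fun v => v ∉ s ∧ ∀ u ∈ s, ¬ G.Adj u v)).card =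
      (k + 1) * (indeps G (k + 1)).card := by
  rw [← sum_N G (k + 1)]
  unfold N
  simp_rw [Finset.card_filter]
  rw [Finset.sum_comm]
  apply Finset.sum_congr rfl
  intro v _
  rw [← Finset.card_filter, ← Finset.card_filter]
  apply Finset.card_bij' (fun s _ => insert v s) (fun s _ => s.erase v)
  rotate_left 2
  · intro s hs
    rw [Finset.mem_filter, mem_indeps] at hs
    rw [Finset.mem_filter, mem_indeps]
    refine ⟨⟨?_, ?_⟩, Finset.mem_insert_self _ _⟩
    · rw [Finset.card_insert_of_notMem hs.2.1, hs.1.1]
    · intro a ha b hb hab
      rw [Finset.coe_insert, Set.mem_insert_iff] at ha hb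
      rcases ha with rfl | ha
      · rcases hb with rfl | hb
        · exact absurd rfl hab
        · intro h
          exact hs.2.2 b hb h.symm
      · rcases hb with rfl | hb
        · exact hs.2.2 a ha
        · exact hs.1.2 ha hb hab
  · intro s hs
    rw [Finset.mem_filter, mem_indeps] at hs
    rw [Finset.mem_filter, mem_indeps]
    refine ⟨⟨?_, ?_⟩, Finset.notMem_erase _ _, ?_⟩
    · rw [Finset.card_erase_of_mem hs.2, hs.1.1]
      rfl
    · intro a ha b hb hab
      exact hs.1.2 (Finset.mem_of_mem_erase ha) (Finset.mem_of_mem_erase hb) hab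
    · intro u hu
      exact hs.1.2 (Finset.mem_of_mem_erase hu) hs.2 (Finset.ne_of_mem_erase hu)
  · intro s hs
    rw [Finset.mem_filter] at hs
    exact Finset.erase_insert hs.2.1
  · intro s hs
    rw [Finset.mem_filter] at hs
    exact Finset.insert_erase hs.2

variable {G}

open Classical in
/-- The edges of the forest, as pairs (vertex, parent). -/
noncomputable def edges (P : Parent G) : Finset (V × V) :=
  Finset.univ.filter (fun e => P.p e.1 = some e.2)

lemma mem_edges (P : Parent G) (e : V × V) : e ∈ edges P ↔ P.p e.1 = some e.2 := by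
  classical
  unfold edges
  simp

/-- The key inequality: summed over the edges, the parents are in fewer independent `k`-sets than the children. -/
lemma key (P : Parent G) (k : ℕ) : ∑ e ∈ edges P, N G k e.2 ≤ ∑ e ∈ edges P, N G k e.1 := by
  classical
  set I := indeps G k with hI
  -- split the two counts
  have hsplit2 : ∀ e ∈ edges P, N G k e.2 =
      (I.filter (fun s => e.2 ∈ s ∧ ∀ u, P.p u = some e.1 → u ∉ s)).card +
      (I.filter (fun s => e.2 ∈ s ∧ ∃ u, P.p u = some e.1 ∧ u ∈ s)).card := by
    intro e _
    unfold N
    rw [← Finset.card_filter_add_card_filter_not (s := I.filter (fun s => e.2 ∈ s))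
      (p := fun s => ∀ u, P.p u = some e.1 → u ∉ s), Finset.filter_filter, Finset.filter_filter]
    congr 2
    apply Finset.filter_congr
    intro s _
    push Not
    rfl
  have hsplit1 : ∀ e ∈ edges P, N G k e.1 =
      (I.filter (fun s => e.1 ∈ s ∧ ∀ z, G.Adj e.2 z → z ≠ e.1 → z ∉ s)).card +
      (I.filter (fun s => e.1 ∈ s ∧ ∃ z, G.Adj e.2 z ∧ z ≠ e.1 ∧ z ∈ s)).card := by
    intro e _
    unfold N
    rw [← Finset.card_filter_add_card_filter_not (s := I.filter (fun s => e.1 ∈ s))
      (p := fun s => ∀ z, G.Adj e.2 z → z ≠ e.1 → z ∉ s), Finset.filter_filter, Finset.filter_filter]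
    congr 2
    apply Finset.filter_congr
    intro s _
    push Not
    rfl
  rw [Finset.sum_congr rfl hsplit2, Finset.sum_congr rfl hsplit1, Finset.sum_add_distrib,
    Finset.sum_add_distrib]
  apply add_le_add
  · -- the swap
    apply Finset.sum_le_sum
    intro e he
    rw [mem_edges] at he
    have hadj := P.adj_of_parent _ _ he
    apply Finset.card_le_card_of_injOn (fun s => insert e.1 (s.erase e.2))
    · intro s hs
      rw [Finset.mem_coe, Finset.mem_filter, hI, mem_indeps] at hs
      rw [Finset.mem_coe, Finset.mem_filter, hI, mem_indeps]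
      obtain ⟨⟨hc, hind⟩, hv, hu⟩ := hs
      have hw : e.1 ∉ s := by
        intro h
        exact hind h hv hadj.ne hadj
      refine ⟨⟨?_, ?_⟩, Finset.mem_insert_self _ _, ?_⟩
      · rw [Finset.card_insert_of_notMem (fun h => hw (Finset.mem_of_mem_erase h)),
          Finset.card_erase_add_one hv, hc]
      · have hfree : ∀ z ∈ s.erase e.2, ¬ G.Adj e.1 z := by
          intro z hz hz'
          rcases P.parent_of_adj _ _ hz' with h | h
          · rw [he] at h
            exact Finset.ne_of_mem_erase hz (Option.some.inj h).symm
          · exact hu z h (Finset.mem_of_mem_erase hz)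
        intro a ha b hb hab
        rw [Finset.coe_insert, Set.mem_insert_iff] at ha hb
        rcases ha with rfl | ha
        · rcases hb with rfl | hb
          · exact absurd rfl hab
          · exact hfree b hb
        · rcases hb with rfl | hb
          · intro h
            exact hfree a ha h.symm
          · exact hind (Finset.mem_of_mem_erase ha) (Finset.mem_of_mem_erase hb) hab
      · intro z hz hne hzs
        rw [Finset.mem_insert] at hzs
        rcases hzs with rfl | hzs
        · exact hne rfl
        · exact hind hv (Finset.mem_of_mem_erase hzs) hz.ne hz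
    · intro s hs t ht hst
      rw [Finset.mem_coe, Finset.mem_filter, hI, mem_indeps] at hs ht
      have hws : e.1 ∉ s := fun h => hs.1.2 h hs.2.1 hadj.ne hadj
      have hwt : e.1 ∉ t := fun h => ht.1.2 h ht.2.1 hadj.ne hadj
      have h1 : s.erase e.2 = t.erase e.2 := by
        have := congrArg (fun r : Finset V => r.erase e.1) hst
        simp only at this
        rwa [Finset.erase_insert (fun h => hws (Finset.mem_of_mem_erase h)),
          Finset.erase_insert (fun h => hwt (Finset.mem_of_mem_erase h))] at this
      rw [← Finset.insert_erase hs.2.1, h1, Finset.insert_erase ht.2.1]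
  · -- the blocked sets
    set c : V → V → ℕ := fun u v => (I.filter (fun s => v ∈ s ∧ u ∈ s)).card with hc
    calc ∑ e ∈ edges P, (I.filter (fun s => e.2 ∈ s ∧ ∃ u, P.p u = some e.1 ∧ u ∈ s)).card
        ≤ ∑ e ∈ edges P, ∑ u ∈ Finset.univ.filter (fun u => P.p u = some e.1), c u e.2 := by
          apply Finset.sum_le_sum
          intro e _
          refine le_trans (Finset.card_le_card ?_) Finset.card_biUnion_le
          intro s hs
          rw [Finset.mem_filter] at hs
          obtain ⟨hs1, hs2, u, hu1, hu2⟩ := hs
          rw [Finset.mem_biUnion]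
          exact ⟨u, Finset.mem_filter.mpr ⟨Finset.mem_univ _, hu1⟩, Finset.mem_filter.mpr ⟨hs1, hs2, hu2⟩⟩
      _ = ∑ e ∈ edges P, ∑ v ∈ Finset.univ.filter (fun v => P.p e.2 = some v), c e.1 v := by
          rw [Finset.sum_sigma', Finset.sum_sigma']
          apply Finset.sum_bij' (fun x _ => (⟨(x.2, x.1.1), x.1.2⟩ : (_ : V × V) × V))
            (fun x _ => (⟨(x.1.2, x.2), x.1.1⟩ : (_ : V × V) × V))
          · rintro ⟨⟨w, v⟩, u⟩ hx
            rw [Finset.mem_sigma, mem_edges, Finset.mem_filter] at hx
            rw [Finset.mem_sigma, mem_edges, Finset.mem_filter]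
            exact ⟨hx.2.2, Finset.mem_univ _, hx.1⟩
          · rintro ⟨⟨u, w⟩, v⟩ hx
            rw [Finset.mem_sigma, mem_edges, Finset.mem_filter] at hx
            rw [Finset.mem_sigma, mem_edges, Finset.mem_filter]
            exact ⟨hx.2.2, Finset.mem_univ _, hx.1⟩
          · rintro ⟨⟨w, v⟩, u⟩ _
            rfl
          · rintro ⟨⟨u, w⟩, v⟩ _
            rfl
          · rintro ⟨⟨w, v⟩, u⟩ _
            rfl
      _ ≤ ∑ e ∈ edges P, (I.filter (fun s => e.1 ∈ s ∧ ∃ z, G.Adj e.2 z ∧ z ≠ e.1 ∧ z ∈ s)).card := by
          apply Finset.sum_le_sum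
          intro e he
          rw [mem_edges] at he
          cases hpv : P.p e.2 with
          | none => simp
          | some v =>
            have : Finset.univ.filter (fun v' => some v = some v') = {v} := by
              ext v'
              simp [eq_comm]
            rw [this, Finset.sum_singleton]
            apply Finset.card_le_card
            intro s hs
            rw [Finset.mem_filter] at hs
            rw [Finset.mem_filter]
            refine ⟨hs.1, hs.2.2, v, P.adj_of_parent _ _ hpv, ?_, hs.2.1⟩
            rintro rfl
            exact P.not_both _ _ he hpv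

lemma sum_edges_fst (P : Parent G) (f : V → ℕ) :
    ∑ e ∈ edges P, f e.1 = ∑ v, (Finset.univ.filter (fun u => P.p v = some u)).card * f v := by
  classical
  unfold edges
  rw [Finset.sum_filter, Fintype.sum_prod_type]
  apply Finset.sum_congr rfl
  intro v _
  rw [← Finset.sum_filter]
  dsimp only
  rw [Finset.sum_const, smul_eq_mul]

lemma sum_edges_snd (P : Parent G) (f : V → ℕ) :
    ∑ e ∈ edges P, f e.2 = ∑ v, (Finset.univ.filter (fun u => P.p u = some v)).card * f v := by
  classical
  unfold edges
  rw [Finset.sum_filter, Fintype.sum_prod_type_right]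
  apply Finset.sum_congr rfl
  intro v _
  rw [← Finset.sum_filter]
  dsimp only
  rw [Finset.sum_const, smul_eq_mul]

open Classical in
lemma deg_sum (P : Parent G) (k : ℕ) :
    ∑ v, (Finset.univ.filter (fun u => G.Adj v u)).card * N G k v ≤ 2 * (k * (indeps G k).card) := by
  have h1 : ∀ v, (Finset.univ.filter (fun u => G.Adj v u)).card ≤
      (Finset.univ.filter (fun u => P.p v = some u)).card + (Finset.univ.filter (fun u => P.p u = some v)).card := by
    intro v
    rw [← Finset.card_union_add_card_inter]
    refine le_trans (Finset.card_le_card ?_) (Nat.le_add_right _ _)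
    intro u hu
    rw [Finset.mem_filter] at hu
    rw [Finset.mem_union, Finset.mem_filter, Finset.mem_filter]
    rcases P.parent_of_adj _ _ hu.2 with h | h
    · left; exact ⟨Finset.mem_univ _, h⟩
    · right; exact ⟨Finset.mem_univ _, h⟩
  have h2 : ∀ v, (Finset.univ.filter (fun u => P.p v = some u)).card ≤ 1 := by
    intro v
    rw [Finset.card_le_one]
    intro a ha b hb
    rw [Finset.mem_filter] at ha hb
    have := ha.2.symm.trans hb.2
    exact Option.some.inj this
  calc ∑ v, (Finset.univ.filter (fun u => G.Adj v u)).card * N G k v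
      ≤ ∑ v, ((Finset.univ.filter (fun u => P.p v = some u)).card * N G k v +
        (Finset.univ.filter (fun u => P.p u = some v)).card * N G k v) := by
        apply Finset.sum_le_sum
        intro v _
        rw [← add_mul]
        exact Nat.mul_le_mul_right _ (h1 v)
    _ = ∑ e ∈ edges P, N G k e.1 + ∑ e ∈ edges P, N G k e.2 := by
        rw [Finset.sum_add_distrib, sum_edges_fst, sum_edges_snd]
    _ ≤ ∑ e ∈ edges P, N G k e.1 + ∑ e ∈ edges P, N G k e.1 := Nat.add_le_add_left (key P k) _
    _ ≤ ∑ v, N G k v + ∑ v, N G k v := by
        have : ∑ e ∈ edges P, N G k e.1 ≤ ∑ v, N G k v := by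
          rw [sum_edges_fst]
          apply Finset.sum_le_sum
          intro v _
          calc _ ≤ 1 * N G k v := Nat.mul_le_mul_right _ (h2 v)
            _ = _ := one_mul _
        omega
    _ = _ := by rw [sum_N]; ring

lemma main_ineq (P : Parent G) (k : ℕ) :
    Fintype.card V * (indeps G k).card ≤ (k + 1) * (indeps G (k + 1)).card + 3 * k * (indeps G k).card := by
  classical
  have h1 : ∀ s ∈ indeps G k, Fintype.card V ≤
      (Finset.univ.filter (fun v => v ∉ s ∧ ∀ u ∈ s, ¬ G.Adj u v)).card + k +
      ∑ v ∈ s, (Finset.univ.filter (fun u => G.Adj v u)).card := by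
    intro s hs
    rw [← Finset.card_univ]
    have hsub : (Finset.univ : Finset V) ⊆ (Finset.univ.filter (fun v => v ∉ s ∧ ∀ u ∈ s, ¬ G.Adj u v)) ∪ s ∪
        s.biUnion (fun v => Finset.univ.filter (fun u => G.Adj v u)) := by
      intro z _
      rw [Finset.mem_union, Finset.mem_union, Finset.mem_filter, Finset.mem_biUnion]
      by_cases hz : z ∈ s
      · left; right; exact hz
      · by_cases hz' : ∀ u ∈ s, ¬ G.Adj u z
        · left; left; exact ⟨Finset.mem_univ _, hz, hz'⟩
        · push Not at hz'
          obtain ⟨u, hu, huz⟩ := hz'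
          right
          exact ⟨u, hu, Finset.mem_filter.mpr ⟨Finset.mem_univ _, huz⟩⟩
    refine (Finset.card_le_card hsub).trans ?_
    refine (Finset.card_union_le _ _).trans (add_le_add ?_ Finset.card_biUnion_le)
    refine (Finset.card_union_le _ _).trans ?_
    rw [((mem_indeps G).mp hs).1]
  have h2 : ∑ s ∈ indeps G k, ∑ v ∈ s, (Finset.univ.filter (fun u => G.Adj v u)).card =
      ∑ v, (Finset.univ.filter (fun u => G.Adj v u)).card * N G k v := by
    have : ∀ s ∈ indeps G k, ∑ v ∈ s, (Finset.univ.filter (fun u => G.Adj v u)).card =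
        ∑ v, if v ∈ s then (Finset.univ.filter (fun u => G.Adj v u)).card else 0 := by
      intro s _
      rw [← Finset.sum_filter]
      apply Finset.sum_congr _ (fun _ _ => rfl)
      ext v
      simp
    rw [Finset.sum_congr rfl this, Finset.sum_comm]
    apply Finset.sum_congr rfl
    intro v _
    rw [← Finset.sum_filter, Finset.sum_const, smul_eq_mul, mul_comm]
    rfl
  have h3 : Fintype.card V * (indeps G k).card = ∑ _s ∈ indeps G k, Fintype.card V := by
    rw [Finset.sum_const, smul_eq_mul, mul_comm]
  have h4 := Finset.sum_le_sum h1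
  rw [← h3, Finset.sum_add_distrib, Finset.sum_add_distrib, ext_count, h2, Finset.sum_const, smul_eq_mul] at h4
  have h5 := deg_sum P k
  nlinarith

end count

/-- For every forest `G` on `n` vertices and every `k` one has `(n - 3 k) i_k ≤ (k + 1) i_{k+1}`; in particular
`i_k ≤ i_{k+1}` whenever `4 k + 1 ≤ n`. -/
theorem result (V : Type) [Fintype V] (G : SimpleGraph V) (hG : G.IsAcyclic) (k : ℕ) :
    ((Fintype.card V : ℤ) - 3 * k) * indepCount G k ≤ (k + 1) * indepCount G (k + 1) ∧
      (4 * k + 1 ≤ Fintype.card V → indepCount G k ≤ indepCount G (k + 1)) := by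
  classical
  obtain ⟨P⟩ := exists_parent hG
  have h := main_ineq P k
  rw [card_indeps, card_indeps] at h
  have h' : ((Fintype.card V : ℤ) - 3 * k) * indepCount G k ≤ (k + 1) * indepCount G (k + 1) := by
    have : ((Fintype.card V * indepCount G k : ℕ) : ℤ) ≤
        (((k + 1) * indepCount G (k + 1) + 3 * k * indepCount G k : ℕ) : ℤ) := by exact_mod_cast h
    push_cast at this
    linarith
  refine ⟨h', ?_⟩
  intro hk
  have h1 : (k + 1) * indepCount G k + 3 * k * indepCount G k ≤ Fintype.card V * indepCount G k := by
    rw [← add_mul]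
    apply Nat.mul_le_mul_right
    omega
  have h2 : (k + 1) * indepCount G k ≤ (k + 1) * indepCount G (k + 1) := by omega
  exact Nat.le_of_mul_le_mul_left h2 (Nat.succ_pos k)

end Pool.Agent.Results.MP_346bfe_co.InitialQuarter
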